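import Pool.Agent.Lib.MP_b83852_lc.NotCUC

set_option autoImplicit false

namespace Pool.Agent.Results.MP_b83852_lc.NotImpliesCUC

open Pool.Agent.Lib.helper81 Pool.Agent.Lib.MP_b83852_lc

/-- There is a model of ZF in which every compact metrizable space is separable and some
countable union of countable sets is uncountable. -/
theorem result : ∃ (M : Type) (E : M → M → Prop), IsZF E ∧ MCS E ∧ ¬ CUC E :=
  exists_model

end Pool.Agent.Results.MP_b83852_lc.NotImpliesCUC
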